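import Mathlib

namespace Pool.Agent.Results.MP_540c93_co.NoFiniteForbidden

open Classical

/-- `S` is an independent dominating set of `G`. -/
def IsIndepDom {W : Type} (G : SimpleGraph W) (S : Finset W) : Prop :=
  (∀ a ∈ S, ∀ b ∈ S, ¬ G.Adj a b) ∧ ∀ v, v ∉ S → ∃ u ∈ S, G.Adj v u

/-- `S` is an i-set of `G`: an independent dominating set of minimum size. -/
def IsISet {W : Type} (G : SimpleGraph W) (S : Finset W) : Prop :=
  IsIndepDom G S ∧ ∀ T : Finset W, IsIndepDom G T → S.card ≤ T.card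

/-- The i-graph of `G`: one token slides along an edge of `G`. -/
noncomputable def iGraph {W : Type} (G : SimpleGraph W) :
    SimpleGraph {S : Finset W // IsISet G S} where
  Adj X Y := ∃ u v, u ∈ X.1 ∧ v ∉ X.1 ∧ G.Adj u v ∧ Y.1 = insert v (X.1.erase u)
  symm := ⟨by
    rintro X Y ⟨u, v, hu, hv, huv, hY⟩
    refine ⟨v, u, ?_, ?_, huv.symm, ?_⟩
    · rw [hY]; exact Finset.mem_insert_self _ _
    · rw [hY]
      simp [huv.ne]
    · rw [hY]
      ext w
      by_cases hwu : w = u
      · subst hwu; simp [hu]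
      · by_cases hwv : w = v
        · subst hwv; simp [hwu, hv]
        · simp [hwu, hwv]⟩
  loopless := ⟨by
    rintro X ⟨u, v, hu, hv, huv, hY⟩
    exact hv (hY ▸ Finset.mem_insert_self _ _)⟩

lemma iGraph_adj_iff {W : Type} (G : SimpleGraph W) (X Y : {S : Finset W // IsISet G S}) :
    (iGraph G).Adj X Y ↔ ∃ u v, u ∈ X.1 ∧ v ∉ X.1 ∧ G.Adj u v ∧
      ∀ w, w ∈ Y.1 ↔ (w = v ∨ (w ≠ u ∧ w ∈ X.1)) := by
  constructor
  · rintro ⟨u, v, hu, hv, huv, hY⟩
    refine ⟨u, v, hu, hv, huv, fun w => ?_⟩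
    rw [hY]
    simp
  · rintro ⟨u, v, hu, hv, huv, hY⟩
    refine ⟨u, v, hu, hv, huv, ?_⟩
    ext w
    rw [hY]
    simp

/-- `H` is an i-graph if it is isomorphic to the i-graph of some finite graph. -/
def IsIGraph {V : Type} (H : SimpleGraph V) : Prop :=
  ∃ (W : Type) (_ : Fintype W) (G : SimpleGraph W), Nonempty (H ≃g iGraph G)

/-! ### Parallel transport along an induced 4-cycle -/

section Transport

variable {W : Type} {G : SimpleGraph W}

lemma two_step {X Z Y : {S : Finset W // IsISet G S}} (hXZ : (iGraph G).Adj X Z)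
    (hZY : (iGraph G).Adj Z Y) (hXY : X ≠ Y) (hnXY : ¬ (iGraph G).Adj X Y) :
    ∃ p q r s, p ∈ X.1 ∧ r ∈ X.1 ∧ p ≠ r ∧ q ∉ X.1 ∧ s ∉ X.1 ∧ q ≠ s ∧
      G.Adj p q ∧ G.Adj r s ∧ Z.1 = insert q (X.1.erase p) ∧
      Y.1 = insert s (insert q ((X.1.erase p).erase r)) := by
  obtain ⟨p, q, hp, hq, hpq, hZ⟩ := hXZ
  obtain ⟨r, s, hr, hs, hrs, hY⟩ := hZY
  have hXind := X.2.1.1
  have hXdom := X.2.1.2
  have hYind := Y.2.1.1
  -- r ≠ q
  have hrq : r ≠ q := by
    intro h
    subst h
    -- Y = insert s (X.erase p)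
    have hY' : Y.1 = insert s (X.1.erase p) := by
      rw [hY, hZ]
      rw [Finset.erase_insert]
      simp [hq]
    by_cases hsp : s = p
    · subst hsp
      apply hXY
      apply Subtype.ext
      rw [hY', Finset.insert_erase hp]
    · have hsX : s ∉ X.1 := by
        intro hsX
        apply hs
        rw [hZ]
        exact Finset.mem_insert_of_mem (Finset.mem_erase.2 ⟨hsp, hsX⟩)
      obtain ⟨w, hw, hsw⟩ := hXdom s hsX
      by_cases hwp : w = p
      · subst hwp
        exact hnXY ⟨w, s, hp, hsX, hsw.symm, hY'⟩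
      · refine hYind s ?_ w ?_ hsw
        · rw [hY']; exact Finset.mem_insert_self _ _
        · rw [hY']; exact Finset.mem_insert_of_mem (Finset.mem_erase.2 ⟨hwp, hw⟩)
  have hrX : r ∈ X.1 ∧ r ≠ p := by
    rw [hZ] at hr
    rcases Finset.mem_insert.1 hr with h | h
    · exact absurd h hrq
    · exact ⟨Finset.mem_of_mem_erase h, Finset.ne_of_mem_erase h⟩
  have hqs : q ≠ s := by
    intro h
    apply hs
    rw [hZ, ← h]
    exact Finset.mem_insert_self _ _
  have hqY : q ∈ Y.1 := by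
    rw [hY, hZ]
    apply Finset.mem_insert_of_mem
    exact Finset.mem_erase.2 ⟨hrq.symm, Finset.mem_insert_self _ _⟩
  have hsp : s ≠ p := by
    intro h
    subst h
    refine hYind s ?_ q hqY hpq
    rw [hY]; exact Finset.mem_insert_self _ _
  have hsX : s ∉ X.1 := by
    intro hsX
    apply hs
    rw [hZ]
    exact Finset.mem_insert_of_mem (Finset.mem_erase.2 ⟨hsp, hsX⟩)
  refine ⟨p, q, r, s, hp, hrX.1, hrX.2.symm, hq, hsX, hqs, hpq, hrs, hZ, ?_⟩
  rw [hY, hZ]
  ext w
  simp only [Finset.mem_insert, Finset.mem_erase]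
  constructor
  · rintro (h | ⟨h1, h2 | h2⟩)
    · exact Or.inl h
    · exact Or.inr (Or.inl h2)
    · exact Or.inr (Or.inr ⟨h1, h2⟩)
  · rintro (h | h | h)
    · exact Or.inl h
    · exact Or.inr ⟨h ▸ hrq.symm, Or.inl h⟩
    · exact Or.inr ⟨h.1, Or.inr h.2⟩

lemma transport {X Z Y U : {S : Finset W // IsISet G S}} (hXZ : (iGraph G).Adj X Z)
    (hZY : (iGraph G).Adj Z Y) (hXU : (iGraph G).Adj X U) (hUY : (iGraph G).Adj U Y)
    (hXY : X ≠ Y) (hnXY : ¬ (iGraph G).Adj X Y) (hZU : Z ≠ U) :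
    X.1 \ U.1 = Z.1 \ Y.1 := by
  obtain ⟨p, q, r, s, hp, hr, hpr, hq, hs, hqs, hpq, hrs, hZ, hY⟩ :=
    two_step hXZ hZY hXY hnXY
  obtain ⟨p', q', r', s', hp', hr', hpr', hq', hs', hqs', hpq', hrs', hU, hY'⟩ :=
    two_step hXU hUY hXY hnXY
  have hYind := Y.2.1.1
  have hZind := Z.2.1.1
  have hUind := U.2.1.1
  -- memberships of Y
  have memY : ∀ w, w ∈ Y.1 ↔ (w = s ∨ w = q ∨ (w ≠ r ∧ w ≠ p ∧ w ∈ X.1)) := by
    intro w; rw [hY]; simp [Finset.mem_insert, Finset.mem_erase]
  have memY' : ∀ w, w ∈ Y.1 ↔ (w = s' ∨ w = q' ∨ (w ≠ r' ∧ w ≠ p' ∧ w ∈ X.1)) := by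
    intro w; rw [hY']; simp [Finset.mem_insert, Finset.mem_erase]
  have memZ : ∀ w, w ∈ Z.1 ↔ (w = q ∨ (w ≠ p ∧ w ∈ X.1)) := by
    intro w; rw [hZ]; simp [Finset.mem_insert, Finset.mem_erase]
  have memU : ∀ w, w ∈ U.1 ↔ (w = q' ∨ (w ≠ p' ∧ w ∈ X.1)) := by
    intro w; rw [hU]; simp [Finset.mem_insert, Finset.mem_erase]
  -- p' ∈ {p, r}
  have hp'Y : p' ∉ Y.1 := by
    rw [memY']
    rintro (h | h | h)
    · exact hs' (h ▸ hp')
    · exact hq' (h ▸ hp')
    · exact h.2.1 rfl
  have hp'cases : p' = p ∨ p' = r := by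
    by_contra hcon
    push Not at hcon
    exact hp'Y ((memY p').2 (Or.inr (Or.inr ⟨hcon.2, hcon.1, hp'⟩)))
  have hq'Y : q' ∈ Y.1 := (memY' q').2 (Or.inr (Or.inl rfl))
  have hq'cases : q' = q ∨ q' = s := by
    rcases (memY q').1 hq'Y with h | h | h
    · exact Or.inr h
    · exact Or.inl h
    · exact absurd h.2.2 hq'
  have hrZ : r ∈ Z.1 := (memZ r).2 (Or.inr ⟨hpr.symm, hr⟩)
  have hqZ : q ∈ Z.1 := (memZ q).2 (Or.inl rfl)
  have hfinal : p' = r ∧ q' = s := by
    rcases hp'cases with h1 | h1 <;> rcases hq'cases with h2 | h2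
    · exfalso
      apply hZU
      apply Subtype.ext
      rw [hZ, hU, h1, h2]
    · exfalso
      -- p' = p, q' = s ; then r' = r, s' = q, so r ~ q
      have hr'Y : r' ∉ Y.1 := by
        rw [memY']
        rintro (h | h | h)
        · exact hs' (h ▸ hr')
        · exact hq' (h ▸ hr')
        · exact h.1 rfl
      have hr'r : r' = r := by
        by_contra hcon
        apply hr'Y
        refine (memY r').2 (Or.inr (Or.inr ⟨hcon, ?_, hr'⟩))
        rw [← h1]; exact hpr'.symm
      have hs'Y : s' ∈ Y.1 := (memY' s').2 (Or.inl rfl)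
      have hs'q : s' = q := by
        rcases (memY s').1 hs'Y with h | h | h
        · exact absurd (h2.trans h.symm) hqs'
        · exact h
        · exact absurd h.2.2 hs'
      rw [hr'r, hs'q] at hrs'
      exact hZind r hrZ q hqZ hrs'
    · exfalso
      rw [h1, h2] at hpq'
      exact hZind r hrZ q hqZ hpq'
    · exact ⟨h1, h2⟩
  obtain ⟨h1, h2⟩ := hfinal
  have e1 : X.1 \ U.1 = {r} := by
    ext w
    rw [Finset.mem_sdiff, memU, Finset.mem_singleton, h1, h2]
    constructor
    · rintro ⟨hw, hn⟩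
      by_contra hcon
      exact hn (Or.inr ⟨hcon, hw⟩)
    · rintro rfl
      refine ⟨hr, ?_⟩
      rintro (h | h)
      · exact hs (h ▸ hr)
      · exact h.1 rfl
  have e2 : Z.1 \ Y.1 = {r} := by
    ext w
    rw [Finset.mem_sdiff, memY, memZ, Finset.mem_singleton]
    constructor
    · rintro ⟨hw, hn⟩
      by_contra hcon
      rcases hw with hw | hw
      · exact hn (Or.inr (Or.inl hw))
      · exact hn (Or.inr (Or.inr ⟨hcon, hw.1, hw.2⟩))
    · rintro rfl
      refine ⟨Or.inr ⟨hpr.symm, hr⟩, ?_⟩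
      rintro (h | h | h)
      · exact hs (h ▸ hr)
      · exact hq (h ▸ hr)
      · exact h.1 rfl
  rw [e1, e2]

end Transport

/-! ### The Moebius ladder is not an i-graph -/

/-- The Moebius ladder with `n` rungs. -/
def moebius (n : ℕ) : SimpleGraph (Fin n × Bool) where
  Adj x y := (x.1 = y.1 ∧ x.2 ≠ y.2) ∨
    (x.2 = y.2 ∧ (x.1.val + 1 = y.1.val ∨ y.1.val + 1 = x.1.val)) ∨
    (x.2 ≠ y.2 ∧ ((x.1.val = 0 ∧ y.1.val + 1 = n) ∨ (y.1.val = 0 ∧ x.1.val + 1 = n)))
  symm := ⟨by
    rintro x y (⟨h1, h2⟩ | ⟨h1, h2⟩ | ⟨h1, h2⟩)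
    · exact Or.inl ⟨h1.symm, h2.symm⟩
    · exact Or.inr (Or.inl ⟨h1.symm, h2.symm⟩)
    · exact Or.inr (Or.inr ⟨h1.symm, h2.symm⟩)⟩
  loopless := ⟨by
    rintro x (⟨_, h2⟩ | ⟨_, h2⟩ | ⟨h1, _⟩)
    · exact h2 rfl
    · omega
    · exact h1 rfl⟩

lemma moebius_not_iGraph (n : ℕ) (hn : 3 ≤ n) : ¬ IsIGraph (moebius n) := by
  rintro ⟨W, _, G, ⟨e⟩⟩
  have hadj : ∀ x y, (iGraph G).Adj (e x) (e y) ↔ (moebius n).Adj x y := fun x y => e.map_adj_iff
  have hstep : ∀ i : ℕ, ∀ h : i + 1 < n,
      (e (⟨i, by omega⟩, false)).1 \ (e (⟨i, by omega⟩, true)).1 =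
      (e (⟨i + 1, h⟩, false)).1 \ (e (⟨i + 1, h⟩, true)).1 := by
    intro i h
    apply transport (X := e (⟨i, by omega⟩, false)) (Z := e (⟨i + 1, h⟩, false))
      (Y := e (⟨i + 1, h⟩, true)) (U := e (⟨i, by omega⟩, true))
    · rw [hadj]; right; left; simp
    · rw [hadj]; left; simp
    · rw [hadj]; left; simp
    · rw [hadj]; right; left; simp
    · intro h'; have := e.injective h'; simp at this
    · rw [hadj]
      rintro (⟨h1, h2⟩ | ⟨h1, h2⟩ | ⟨h1, h2⟩)
      · simp at h1
      · simp at h1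
      · simp at h2; omega
    · intro h'; have := e.injective h'; simp at this
  have hall : ∀ i : ℕ, ∀ h : i < n,
      (e (⟨0, by omega⟩, false)).1 \ (e (⟨0, by omega⟩, true)).1 =
      (e (⟨i, h⟩, false)).1 \ (e (⟨i, h⟩, true)).1 := by
    intro i
    induction i with
    | zero => intro h; rfl
    | succ k ih => intro h; rw [ih (by omega), hstep k h]
  have hlast : (e (⟨n - 1, by omega⟩, false)).1 \ (e (⟨n - 1, by omega⟩, true)).1 =
      (e (⟨0, by omega⟩, true)).1 \ (e (⟨0, by omega⟩, false)).1 := by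
    apply transport (X := e (⟨n - 1, by omega⟩, false)) (Z := e (⟨0, by omega⟩, true))
      (Y := e (⟨0, by omega⟩, false)) (U := e (⟨n - 1, by omega⟩, true))
    · rw [hadj]; right; right; simp; omega
    · rw [hadj]; left; simp
    · rw [hadj]; left; simp
    · rw [hadj]; right; right; simp; omega
    · intro h'; have := e.injective h'; simp at this; omega
    · rw [hadj]
      rintro (⟨h1, h2⟩ | ⟨h1, h2⟩ | ⟨h1, h2⟩)
      · simp at h2
      · simp at h2; omega
      · simp at h1
    · intro h'; have := e.injective h'; simp at this; omega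
  have hkey := (hall (n - 1) (by omega)).trans hlast
  have hne : e (⟨0, by omega⟩, false) ≠ e (⟨0, by omega⟩, true) := by
    intro h'; have := e.injective h'; simp at this
  apply hne
  apply Subtype.ext
  ext w
  constructor
  · intro hw
    by_contra hcon
    have h1 : w ∈ (e (⟨0, by omega⟩, false)).1 \ (e (⟨0, by omega⟩, true)).1 :=
      Finset.mem_sdiff.2 ⟨hw, hcon⟩
    rw [hkey] at h1
    exact hcon (Finset.mem_sdiff.1 h1).1
  · intro hw
    by_contra hcon
    have h1 : w ∈ (e (⟨0, by omega⟩, true)).1 \ (e (⟨0, by omega⟩, false)).1 :=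
      Finset.mem_sdiff.2 ⟨hw, hcon⟩
    rw [← hkey] at h1
    exact hcon (Finset.mem_sdiff.1 h1).1

/-! ### Ladders are i-graphs -/

/-- The ladder with `m` rungs. -/
def ladder (m : ℕ) : SimpleGraph (Fin m × Bool) where
  Adj x y := (x.1 = y.1 ∧ x.2 ≠ y.2) ∨
    (x.2 = y.2 ∧ (x.1.val + 1 = y.1.val ∨ y.1.val + 1 = x.1.val))
  symm := ⟨by
    rintro x y (⟨h1, h2⟩ | ⟨h1, h2⟩)
    · exact Or.inl ⟨h1.symm, h2.symm⟩
    · exact Or.inr ⟨h1.symm, h2.symm⟩⟩
  loopless := ⟨by
    rintro x (⟨_, h2⟩ | ⟨_, h2⟩)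
    · exact h2 rfl
    · omega⟩

/-- A seed graph of the ladder: complement of a path with `m + 1` vertices, plus an edge. -/
def seed (m : ℕ) : SimpleGraph (Fin (m + 1) ⊕ Bool) where
  Adj x y := match x, y with
    | Sum.inl i, Sum.inl j => i ≠ j ∧ i.val + 1 ≠ j.val ∧ j.val + 1 ≠ i.val
    | Sum.inr a, Sum.inr b => a ≠ b
    | _, _ => False
  symm := ⟨by
    rintro (i | a) (j | b) h
    · exact ⟨h.1.symm, h.2.2, h.2.1⟩
    · exact h
    · exact h
    · exact Ne.symm h⟩
  loopless := ⟨by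
    rintro (i | a) h
    · exact h.1 rfl
    · exact h rfl⟩

/-- The i-sets of the seed graph. -/
noncomputable def cell (m : ℕ) (i : Fin m) (a : Bool) : Finset (Fin (m + 1) ⊕ Bool) :=
  {Sum.inl i.castSucc, Sum.inl i.succ, Sum.inr a}

lemma mem_cell_inl (m : ℕ) (i : Fin m) (a : Bool) (k : Fin (m + 1)) :
    Sum.inl k ∈ cell m i a ↔ (k.val = i.val ∨ k.val = i.val + 1) := by
  simp [cell, Fin.ext_iff]

lemma mem_cell_inr (m : ℕ) (i : Fin m) (a b : Bool) :
    Sum.inr b ∈ cell m i a ↔ b = a := by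
  simp [cell]

lemma card_cell (m : ℕ) (i : Fin m) (a : Bool) : (cell m i a).card = 3 := by
  unfold cell
  rw [Finset.card_insert_of_notMem, Finset.card_insert_of_notMem, Finset.card_singleton]
  · simp
  · simp [Fin.ext_iff]

lemma cell_indepDom (m : ℕ) (i : Fin m) (a : Bool) : IsIndepDom (seed m) (cell m i a) := by
  constructor
  · rintro (x | x) hx (y | y) hy h
    · rw [mem_cell_inl] at hx hy
      have h1 : x ≠ y := h.1
      have h2 : x.val + 1 ≠ y.val := h.2.1
      have h3 : y.val + 1 ≠ x.val := h.2.2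
      have h4 : x.val ≠ y.val := fun h' => h1 (Fin.ext h')
      omega
    · exact h
    · exact h
    · rw [mem_cell_inr] at hx hy
      exact h (hx.trans hy.symm)
  · rintro (x | x) hx
    · rw [mem_cell_inl] at hx
      push Not at hx
      by_cases hlt : x.val < i.val
      · refine ⟨Sum.inl i.succ, ?_, ?_⟩
        · rw [mem_cell_inl]; right; simp
        · refine ⟨?_, ?_, ?_⟩
          · intro h; have := congrArg Fin.val h; simp at this; omega
          · simp; omega
          · simp; omega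
      · refine ⟨Sum.inl i.castSucc, ?_, ?_⟩
        · rw [mem_cell_inl]; left; simp
        · refine ⟨?_, ?_, ?_⟩
          · intro h; have := congrArg Fin.val h; simp at this; omega
          · simp; omega
          · simp; omega
    · rw [mem_cell_inr] at hx
      exact ⟨Sum.inr a, by rw [mem_cell_inr], hx⟩

lemma indepDom_cell (m : ℕ) (hm : 1 ≤ m) (S : Finset (Fin (m + 1) ⊕ Bool))
    (hS : IsIndepDom (seed m) S) : ∃ (i : Fin m) (a : Bool), S = cell m i a := by
  obtain ⟨hind, hdom⟩ := hS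
  -- the right part
  have hR : ∃ a : Bool, Sum.inr a ∈ S := by
    by_contra hcon
    push Not at hcon
    obtain ⟨u, hu, hadj⟩ := hdom (Sum.inr true) (hcon true)
    rcases u with u | u
    · exact hadj
    · exact hcon u hu
  obtain ⟨a, ha⟩ := hR
  have hRonly : ∀ b : Bool, Sum.inr b ∈ S ↔ b = a := by
    intro b
    constructor
    · intro hb
      by_contra hne
      exact hind _ hb _ ha hne
    · rintro rfl; exact ha
  -- the left part
  have hL : ∃ k : Fin (m + 1), Sum.inl k ∈ S := by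
    by_contra hcon
    push Not at hcon
    obtain ⟨u, hu, hadj⟩ := hdom (Sum.inl 0) (hcon 0)
    rcases u with u | u
    · exact hcon u hu
    · exact hadj
  have hpair : ∀ k l : Fin (m + 1), Sum.inl k ∈ S → Sum.inl l ∈ S →
      k.val = l.val ∨ k.val + 1 = l.val ∨ l.val + 1 = k.val := by
    intro k l hk hl
    by_contra hcon
    push Not at hcon
    exact hind _ hk _ hl ⟨fun h => hcon.1 (congrArg Fin.val h), hcon.2.1, hcon.2.2⟩
  have hdomL : ∀ k : Fin (m + 1), Sum.inl k ∉ S → ∃ l : Fin (m + 1), Sum.inl l ∈ S ∧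
      k.val ≠ l.val ∧ k.val + 1 ≠ l.val ∧ l.val + 1 ≠ k.val := by
    intro k hk
    obtain ⟨u, hu, hadj⟩ := hdom (Sum.inl k) hk
    rcases u with u | u
    · exact ⟨u, hu, fun h => hadj.1 (Fin.ext h), hadj.2.1, hadj.2.2⟩
    · exact absurd hadj (fun h => h)
  -- there are two consecutive elements
  have htwo : ∃ i : Fin m, Sum.inl i.castSucc ∈ S ∧ Sum.inl i.succ ∈ S := by
    obtain ⟨k, hk⟩ := hL
    by_cases h2 : ∃ l : Fin (m + 1), Sum.inl l ∈ S ∧ l ≠ k
    · obtain ⟨l, hl, hlk⟩ := h2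
      have hne : l.val ≠ k.val := fun h => hlk (Fin.ext h)
      rcases hpair k l hk hl with h | h | h
      · exact absurd h.symm hne
      · refine ⟨⟨k.val, by omega⟩, ?_, ?_⟩
        · have : (⟨k.val, by omega⟩ : Fin m).castSucc = k := Fin.ext rfl
          rw [this]; exact hk
        · have : (⟨k.val, by omega⟩ : Fin m).succ = l := Fin.ext h
          rw [this]; exact hl
      · refine ⟨⟨l.val, by omega⟩, ?_, ?_⟩
        · have : (⟨l.val, by omega⟩ : Fin m).castSucc = l := Fin.ext rfl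
          rw [this]; exact hl
        · have : (⟨l.val, by omega⟩ : Fin m).succ = k := Fin.ext h
          rw [this]; exact hk
    · push Not at h2
      exfalso
      -- a neighbour index of k
      have hex : ∃ l : Fin (m + 1), k.val + 1 = l.val ∨ l.val + 1 = k.val := by
        by_cases hk0 : k.val = 0
        · exact ⟨⟨1, by omega⟩, Or.inl (by show k.val + 1 = 1; omega)⟩
        · exact ⟨⟨k.val - 1, by omega⟩, Or.inr (by show k.val - 1 + 1 = k.val; omega)⟩
      obtain ⟨l, hl⟩ := hex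
      have hlS : Sum.inl l ∉ S := by
        intro hlS
        have := h2 l hlS
        subst this
        omega
      obtain ⟨k', hk', h3⟩ := hdomL l hlS
      have := h2 k' hk'
      subst this
      omega
  obtain ⟨i, hi1, hi2⟩ := htwo
  refine ⟨i, a, ?_⟩
  ext x
  rcases x with k | b
  · rw [mem_cell_inl]
    constructor
    · intro hk
      have h1 := hpair k _ hk hi1
      have h2 := hpair k _ hk hi2
      simp at h1 h2
      omega
    · rintro (h | h)
      · have : k = i.castSucc := Fin.ext h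
        rw [this]; exact hi1
      · have : k = i.succ := Fin.ext h
        rw [this]; exact hi2
  · rw [mem_cell_inr, hRonly]

lemma cell_isISet (m : ℕ) (i : Fin m) (a : Bool) : IsISet (seed m) (cell m i a) := by
  refine ⟨cell_indepDom m i a, ?_⟩
  intro T hT
  obtain ⟨j, b, rfl⟩ := indepDom_cell m (by have := i.2; omega) T hT
  rw [card_cell, card_cell]

lemma ladder_iGraph (m : ℕ) (hm : 1 ≤ m) : IsIGraph (ladder m) := by
  refine ⟨Fin (m + 1) ⊕ Bool, inferInstance, seed m, ⟨?_⟩⟩
  have hbij : Function.Bijective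
      (fun x : Fin m × Bool => (⟨cell m x.1 x.2, cell_isISet m x.1 x.2⟩ :
        {S : Finset (Fin (m + 1) ⊕ Bool) // IsISet (seed m) S})) := by
    constructor
    · rintro ⟨i, a⟩ ⟨j, b⟩ h
      have h' : cell m i a = cell m j b := congrArg Subtype.val h
      have h1 : a = b := by
        rw [← mem_cell_inr m j b a, ← h', mem_cell_inr]
      have h2 := (mem_cell_inl m j b i.castSucc).1 (h' ▸ (mem_cell_inl m i a _).2 (Or.inl rfl))
      have h3 := (mem_cell_inl m j b i.succ).1 (h' ▸ (mem_cell_inl m i a _).2 (Or.inr rfl))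
      simp at h2 h3
      have h4 : i = j := Fin.ext (by omega)
      rw [h1, h4]
    · rintro ⟨S, hS⟩
      obtain ⟨i, a, rfl⟩ := indepDom_cell m hm S hS.1
      exact ⟨(i, a), rfl⟩
  refine ⟨Equiv.ofBijective _ hbij, ?_⟩
  rintro ⟨i, a⟩ ⟨j, b⟩
  rw [iGraph_adj_iff]
  change (∃ u v, u ∈ cell m i a ∧ v ∉ cell m i a ∧ (seed m).Adj u v ∧
    ∀ w, w ∈ cell m j b ↔ (w = v ∨ (w ≠ u ∧ w ∈ cell m i a))) ↔ (ladder m).Adj (i, a) (j, b)
  constructor
  · rintro ⟨u, v, hu, hv, huv, key⟩
    rcases u with u | u <;> rcases v with v | v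
    · -- left move
      right
      have hab : a = b := by
        have := (key (Sum.inr a)).2 (Or.inr ⟨by simp, (mem_cell_inr _ _ _ _).2 rfl⟩)
        exact (mem_cell_inr _ _ _ _).1 this
      refine ⟨hab, ?_⟩
      rw [mem_cell_inl] at hu hv
      have hvj := (mem_cell_inl _ _ _ _).1 ((key (Sum.inl v)).2 (Or.inl rfl))
      have huj : ¬ (u.val = j.val ∨ u.val = j.val + 1) := by
        intro h
        have := (key (Sum.inl u)).1 ((mem_cell_inl _ _ _ _).2 h)
        rcases this with h1 | h1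
        · exact huv.1 (Sum.inl_injective h1)
        · exact h1.1 rfl
      -- the other element of cell i stays
      have hother : ∀ k : Fin (m + 1), (k.val = i.val ∨ k.val = i.val + 1) → k ≠ u →
          (k.val = j.val ∨ k.val = j.val + 1) := by
        intro k hk hku
        have := (key (Sum.inl k)).2 (Or.inr ⟨by simpa using hku, (mem_cell_inl _ _ _ _).2 hk⟩)
        exact (mem_cell_inl _ _ _ _).1 this
      rcases hu with hu | hu
      · have := hother i.succ (Or.inr (by simp)) (by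
          intro h; have := congrArg Fin.val h; simp at this; omega)
        simp at this
        show i.val + 1 = j.val ∨ j.val + 1 = i.val
        omega
      · have := hother i.castSucc (Or.inl (by simp)) (by
          intro h; have := congrArg Fin.val h; simp at this; omega)
        simp at this
        show i.val + 1 = j.val ∨ j.val + 1 = i.val
        omega
    · exact absurd huv (fun h => h)
    · exact absurd huv (fun h => h)
    · left
      have hua : u = a := (mem_cell_inr _ _ _ _).1 hu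
      have hvb : v = b := (mem_cell_inr _ _ _ _).1 ((key (Sum.inr v)).2 (Or.inl rfl))
      have huv' : u ≠ v := huv
      refine ⟨?_, ?_⟩
      · have h1 := (mem_cell_inl _ _ _ _).1 ((key (Sum.inl i.castSucc)).2
          (Or.inr ⟨by simp, (mem_cell_inl _ _ _ _).2 (Or.inl (by simp))⟩))
        have h2 := (mem_cell_inl _ _ _ _).1 ((key (Sum.inl i.succ)).2
          (Or.inr ⟨by simp, (mem_cell_inl _ _ _ _).2 (Or.inr (by simp))⟩))
        simp at h1 h2
        exact Fin.ext (by simp; omega)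
      · show a ≠ b
        rw [← hua, ← hvb]; exact huv'
  · rintro (⟨h1, h2⟩ | ⟨h1, h2⟩)
    · simp at h1 h2
      subst h1
      refine ⟨Sum.inr a, Sum.inr b, (mem_cell_inr _ _ _ _).2 rfl, ?_, h2, ?_⟩
      · rw [mem_cell_inr]; exact fun h => h2 h.symm
      · intro w
        rcases w with w | w
        · simp [mem_cell_inl]
        · simp only [mem_cell_inr, Sum.inr.injEq, ne_eq]
          constructor
          · intro h; exact Or.inl h
          · rintro (h | h)
            · exact h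
            · exact absurd h.2 h.1
    · simp at h1 h2
      subst h1
      rcases h2 with h2 | h2
      · refine ⟨Sum.inl i.castSucc, Sum.inl j.succ, (mem_cell_inl _ _ _ _).2 (Or.inl (by simp)),
          ?_, ⟨?_, ?_, ?_⟩, ?_⟩
        · rw [mem_cell_inl]; simp; omega
        · intro h; have := congrArg Fin.val h; simp at this; omega
        · simp; omega
        · simp; omega
        · intro w
          rcases w with w | w
          · simp only [mem_cell_inl, Sum.inl.injEq, ne_eq,
              Fin.ext_iff, Fin.val_succ, Fin.val_castSucc]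
            omega
          · simp [mem_cell_inr]
      · refine ⟨Sum.inl i.succ, Sum.inl j.castSucc, (mem_cell_inl _ _ _ _).2 (Or.inr (by simp)),
          ?_, ⟨?_, ?_, ?_⟩, ?_⟩
        · rw [mem_cell_inl]; simp; omega
        · intro h; have := congrArg Fin.val h; simp at this; omega
        · simp; omega
        · simp; omega
        · intro w
          rcases w with w | w
          · simp only [mem_cell_inl, Sum.inl.injEq, ne_eq,
              Fin.ext_iff, Fin.val_succ, Fin.val_castSucc]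
            omega
          · simp [mem_cell_inr]

/-! ### Small induced subgraphs of the Moebius ladder lie in a ladder -/

/-- Unrolling the Moebius ladder after deletion of rung `j`: rung index. -/
def unrollN (m j x : ℕ) : ℕ := if j < x then x - j - 1 else x + m - j

/-- Unrolling the Moebius ladder after deletion of rung `j`: side. -/
def unrollB (j x : ℕ) (a : Bool) : Bool := if j < x then a else !a

lemma unrollN_lt {m j x : ℕ} (hj : j < m + 1) (hx : x < m + 1) (hne : x ≠ j) :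
    unrollN m j x < m := by
  unfold unrollN; split_ifs <;> omega

/-- Unrolling the Moebius ladder after deletion of rung `j`. -/
def unroll (m : ℕ) (j : Fin (m + 1)) (x : Fin (m + 1) × Bool) (hx : x.1 ≠ j) : Fin m × Bool :=
  (⟨unrollN m j.val x.1.val, unrollN_lt j.2 x.1.2 (fun h' => hx (Fin.ext h'))⟩,
    unrollB j.val x.1.val x.2)

lemma unroll_adj (m : ℕ) (hm : 2 ≤ m) (j : Fin (m + 1)) (x y : Fin (m + 1) × Bool)
    (hx : x.1 ≠ j) (hy : y.1 ≠ j) :
    (ladder m).Adj (unroll m j x hx) (unroll m j y hy) ↔ (moebius (m + 1)).Adj x y := by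
  obtain ⟨⟨x, hxl⟩, a⟩ := x
  obtain ⟨⟨y, hyl⟩, b⟩ := y
  obtain ⟨j, hjl⟩ := j
  have hx' : x ≠ j := fun h' => hx (Fin.ext h')
  have hy' : y ≠ j := fun h' => hy (Fin.ext h')
  change ((⟨unrollN m j x, _⟩ : Fin m) = ⟨unrollN m j y, _⟩ ∧ unrollB j x a ≠ unrollB j y b) ∨
    (unrollB j x a = unrollB j y b ∧ (unrollN m j x + 1 = unrollN m j y ∨
      unrollN m j y + 1 = unrollN m j x)) ↔
    ((⟨x, hxl⟩ : Fin (m + 1)) = ⟨y, hyl⟩ ∧ a ≠ b) ∨
    (a = b ∧ (x + 1 = y ∨ y + 1 = x)) ∨
    (a ≠ b ∧ ((x = 0 ∧ y + 1 = m + 1) ∨ (y = 0 ∧ x + 1 = m + 1)))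
  rw [Fin.mk.injEq, Fin.mk.injEq]
  unfold unrollN unrollB
  split_ifs with h1 h2 h2
  all_goals
    cases a <;> cases b <;>
    simp only [Bool.not_true, Bool.not_false, ne_eq,
      reduceCtorEq, not_true_eq_false, not_false_eq_true, and_true, and_false, true_and,
      false_and, or_false, false_or] <;>
    omega

lemma unroll_inj (m : ℕ) (j : Fin (m + 1)) (x y : Fin (m + 1) × Bool)
    (hx : x.1 ≠ j) (hy : y.1 ≠ j) (h : unroll m j x hx = unroll m j y hy) : x = y := by
  obtain ⟨⟨x, hxl⟩, a⟩ := x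
  obtain ⟨⟨y, hyl⟩, b⟩ := y
  obtain ⟨j, hjl⟩ := j
  have hx' : x ≠ j := fun h' => hx (Fin.ext h')
  have hy' : y ≠ j := fun h' => hy (Fin.ext h')
  have h1 : unrollN m j x = unrollN m j y := congrArg (fun z => z.1.val) h
  have h2 : unrollB j x a = unrollB j y b := congrArg (fun z => z.2) h
  rw [Prod.mk.injEq, Fin.mk.injEq]
  unfold unrollN at h1
  unfold unrollB at h2
  split_ifs at h1 h2 with h3 h4 h4
  all_goals
    cases a <;> cases b <;>
    simp only [Bool.not_true, Bool.not_false, reduceCtorEq, and_true, and_false] at h2 ⊢ <;>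
    omega

/-- **Main theorem.** There is no finite family of forbidden induced subgraphs for i-graphs. -/
theorem result : ¬ ∃ F : Set (Σ n : ℕ, SimpleGraph (Fin n)), F.Finite ∧
    ∀ (V : Type) [Fintype V] [Nonempty V] (H : SimpleGraph V),
      IsIGraph H ↔ ∀ K ∈ F, ¬ Nonempty (K.2 ↪g H) := by
  rintro ⟨F, hfin, hF⟩
  -- bound the orders of members of F
  obtain ⟨N, hN⟩ : ∃ N : ℕ, ∀ K ∈ F, K.1 ≤ N := by
    have : (Sigma.fst '' F).Finite := hfin.image _
    obtain ⟨N, hN⟩ := this.bddAbove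
    exact ⟨N, fun K hK => hN ⟨K, hK, rfl⟩⟩
  have h1 : ¬ IsIGraph (moebius (N + 2 + 1)) := moebius_not_iGraph _ (by omega)
  rw [hF] at h1
  push Not at h1
  obtain ⟨K, hK, ⟨φ⟩⟩ := h1
  -- a missed rung
  obtain ⟨j, hj⟩ : ∃ j : Fin (N + 2 + 1), ∀ v, (φ v).1 ≠ j := by
    by_contra hcon
    push Not at hcon
    have hsurj : Function.Surjective (fun v : Fin K.1 => (φ v).1) := hcon
    have := Fintype.card_le_of_surjective _ hsurj
    simp at this
    have := hN K hK
    omega
  have h2 : IsIGraph (ladder (N + 2)) := ladder_iGraph _ (by omega)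
  have : Nonempty (Fin (N + 2) × Bool) := ⟨(⟨0, by omega⟩, true)⟩
  rw [hF] at h2
  apply h2 K hK
  refine ⟨⟨⟨fun v => unroll (N + 2) j (φ v) (hj v), ?_⟩, ?_⟩⟩
  · intro v w h
    exact φ.injective (unroll_inj _ _ _ _ _ _ h)
  · intro v w
    change (ladder (N + 2)).Adj (unroll (N + 2) j (φ v) (hj v)) (unroll (N + 2) j (φ w) (hj w)) ↔ _
    rw [unroll_adj _ (by omega)]
    exact φ.map_adj_iff

end Pool.Agent.Results.MP_540c93_co.NoFiniteForbidden
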